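import Mathlib

set_option autoImplicit false

namespace Pool.Agent.Lib.MP_baf2fc_al

/-- Shift of the height of a letter. -/
def sh {β : Type} (a : ℤ) (p : ℤ × β) : ℤ × β := (p.1 + a, p.2)

@[simp] lemma sh_zero {β : Type} (p : ℤ × β) : sh 0 p = p := by simp [sh]

lemma sh_sh {β : Type} (a b : ℤ) (p : ℤ × β) : sh a (sh b p) = sh (a + b) p := by
  simp only [sh, Prod.mk.injEq, and_true]; ring

lemma sh_inj {β : Type} (a : ℤ) : Function.Injective (sh a : ℤ × β → ℤ × β) := by
  rintro ⟨p1, p2⟩ ⟨q1, q2⟩ h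
  simp only [sh, Prod.mk.injEq] at h
  simp only [Prod.mk.injEq]
  exact ⟨by omega, h.2⟩

/-- Words in height-labelled letters together with a final height. -/
@[ext] structure W (β : Type) where
  L : List (ℤ × β)
  a : ℤ

instance {β : Type} : Monoid (W β) where
  mul u v := ⟨u.L ++ v.L.map (sh u.a), u.a + v.a⟩
  one := ⟨[], 0⟩
  mul_assoc u v w := by
    apply W.ext
    · change (u.L ++ v.L.map (sh u.a)) ++ w.L.map (sh (u.a + v.a))
        = u.L ++ (v.L ++ w.L.map (sh v.a)).map (sh u.a)
      simp only [List.map_append, List.map_map, List.append_assoc]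
      congr 2
      apply List.map_congr_left
      intro p _
      simp [sh_sh]
    · change u.a + v.a + w.a = u.a + (v.a + w.a)
      ring
  one_mul u := by
    apply W.ext
    · change [] ++ u.L.map (sh 0) = u.L
      have : (sh 0 : ℤ × β → ℤ × β) = id := funext sh_zero
      simp [this]
    · change 0 + u.a = u.a
      ring
  mul_one u := by
    apply W.ext
    · change u.L ++ List.map (sh u.a) [] = u.L
      simp
    · change u.a + 0 = u.a
      ring

variable {β : Type}

@[simp] lemma mul_L (u v : W β) : (u * v).L = u.L ++ v.L.map (sh u.a) := rfl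
@[simp] lemma mul_a (u v : W β) : (u * v).a = u.a + v.a := rfl
@[simp] lemma one_L : (1 : W β).L = [] := rfl
@[simp] lemma one_a : (1 : W β).a = 0 := rfl

lemma mul_left_cancel_W (u v v' : W β) (h : u * v = u * v') : v = v' := by
  have h1 := congrArg W.L h
  have h2 := congrArg W.a h
  simp only [mul_L, List.append_cancel_left_eq, mul_a] at h1 h2
  exact W.ext (List.map_injective_iff.mpr (sh_inj _) h1) (by omega)

/-- Action on infinite words. -/
def act (w : W β) (ω : ℕ → ℤ × β) : ℕ → ℤ × β := fun n =>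
  if h : n < w.L.length then w.L[n] else sh w.a (ω (n - w.L.length))

lemma act_one (ω : ℕ → ℤ × β) : act 1 ω = ω := by
  funext n; simp [act]

lemma act_mul (u v : W β) (ω : ℕ → ℤ × β) : act (u * v) ω = act u (act v ω) := by
  funext n
  simp only [act, mul_L, List.length_append, List.length_map, mul_a]
  by_cases h1 : n < u.L.length
  · have h2 : n < u.L.length + v.L.length := by omega
    simp [h1, h2, List.getElem_append_left]
  · by_cases h2 : n < u.L.length + v.L.length
    · have h3 : n - u.L.length < v.L.length := by omega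
      simp only [h1, h2, h3, dite_true, dite_false]
      rw [List.getElem_append_right (by omega)]
      simp
    · have h3 : ¬ n - u.L.length < v.L.length := by omega
      simp only [h1, h2, h3, dite_false, sh_sh]
      congr 2
      omega

lemma exists_fixed (w : W β) (hw : 0 < w.L.length) : ∃ ω, act w ω = ω := by
  refine ⟨fun n => sh ((n / w.L.length : ℕ) * w.a) (w.L[n % w.L.length]'(Nat.mod_lt _ hw)), ?_⟩
  funext n
  simp only [act]
  by_cases h : n < w.L.length
  · simp [h, Nat.div_eq_of_lt h, Nat.mod_eq_of_lt h]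
  · simp only [h, dite_false, sh_sh]
    have h1 : n / w.L.length = (n - w.L.length) / w.L.length + 1 := by
      rw [Nat.div_eq_sub_div hw (by omega)]
    have h2 : (n - w.L.length) % w.L.length = n % w.L.length := by
      rw [← Nat.mod_eq_sub_mod (by omega)]
    simp only [h2]
    congr 1
    rw [h1]; push_cast; ring

section order
variable [LinearOrder β]

/-- Lexicographic comparison of infinite words. -/
def lt' (ω ω' : ℕ → ℤ × β) : Prop :=
  ∃ p, (∀ q < p, ω q = ω' q) ∧ toLex (ω p) < toLex (ω' p)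

lemma sh_lt (a : ℤ) {p q : ℤ × β} (h : toLex p < toLex q) : toLex (sh a p) < toLex (sh a q) := by
  rw [Prod.Lex.toLex_lt_toLex] at h ⊢
  simp only [sh]
  rcases h with h | h
  · left; omega
  · right; exact ⟨by omega, h.2⟩

lemma lt'_irrefl (ω : ℕ → ℤ × β) : ¬ lt' ω ω := by
  rintro ⟨p, -, h⟩; exact lt_irrefl _ h

lemma lt'_trans {ω₁ ω₂ ω₃ : ℕ → ℤ × β} (h : lt' ω₁ ω₂) (h' : lt' ω₂ ω₃) : lt' ω₁ ω₃ := by
  obtain ⟨p, hp, hp'⟩ := h
  obtain ⟨q, hq, hq'⟩ := h'
  rcases lt_trichotomy p q with h | h | h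
  · exact ⟨p, fun r hr => (hp r hr).trans (hq r (hr.trans h)), by rw [← hq p h]; exact hp'⟩
  · subst h
    exact ⟨p, fun r hr => (hp r hr).trans (hq r hr), hp'.trans hq'⟩
  · exact ⟨q, fun r hr => (hp r (hr.trans h)).trans (hq r hr), by rw [hp q h]; exact hq'⟩

lemma lt'_total (ω ω' : ℕ → ℤ × β) : lt' ω ω' ∨ ω = ω' ∨ lt' ω' ω := by
  classical
  by_cases h : ω = ω'
  · exact Or.inr (Or.inl h)
  · have hex : ∃ p, ω p ≠ ω' p := by
      by_contra hc
      push Not at hc
      exact h (funext hc)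
    have hp := Nat.find_spec hex
    have hq : ∀ q < Nat.find hex, ω q = ω' q := fun q hq => by
      have := Nat.find_min hex hq
      push Not at this
      exact this
    rcases lt_trichotomy (toLex (ω (Nat.find hex))) (toLex (ω' (Nat.find hex))) with h1 | h1 | h1
    · exact Or.inl ⟨_, hq, h1⟩
    · exact absurd (toLex.injective h1) hp
    · exact Or.inr (Or.inr ⟨_, fun q hq' => (hq q hq').symm, h1⟩)

lemma act_lt' (w : W β) {ω ω' : ℕ → ℤ × β} (h : lt' ω ω') : lt' (act w ω) (act w ω') := by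
  obtain ⟨p, hp, hp'⟩ := h
  refine ⟨p + w.L.length, fun q hq => ?_, ?_⟩
  · simp only [act]
    by_cases h1 : q < w.L.length
    · simp [h1]
    · simp only [h1, dite_false]
      rw [hp _ (by omega)]
  · have h1 : ¬ p + w.L.length < w.L.length := by omega
    simp only [act, h1, dite_false, Nat.add_sub_cancel]
    exact sh_lt _ hp'

lemma bergman (w : W β) (hw : 0 < w.L.length) {ω ζ : ℕ → ℤ × β} (hω : act w ω = ω)
    (h : lt' ω ζ) : lt' (act w ζ) ζ := by
  obtain ⟨p, hp, hp'⟩ := h
  have key : ∀ q ≤ p, act w ζ q = ω q := by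
    intro q hq
    rw [← hω]
    simp only [act]
    by_cases h1 : q < w.L.length
    · simp [h1]
    · simp only [h1, dite_false]
      rw [hp _ (by omega)]
  exact ⟨p, fun q hq => (key q hq.le).trans (hp q hq), by rw [key p le_rfl]; exact hp'⟩

lemma exists_max' (S : Finset (W β)) (hS : S.Nonempty) (f : W β → ℕ → ℤ × β) :
    ∃ w ∈ S, ∀ v ∈ S, lt' (f v) (f w) ∨ f v = f w := by
  classical
  induction hS using Finset.Nonempty.cons_induction with
  | singleton a => exact ⟨a, by simp, by simp⟩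
  | cons a s ha hs ih =>
    obtain ⟨w, hw, hw'⟩ := ih
    rcases lt'_total (f a) (f w) with h | h | h
    · refine ⟨w, by simp [hw], fun v hv => ?_⟩
      rcases Finset.mem_cons.mp hv with rfl | hv
      · exact Or.inl h
      · exact hw' v hv
    · refine ⟨w, by simp [hw], fun v hv => ?_⟩
      rcases Finset.mem_cons.mp hv with rfl | hv
      · exact Or.inr h
      · exact hw' v hv
    · refine ⟨a, by simp, fun v hv => ?_⟩
      rcases Finset.mem_cons.mp hv with rfl | hv
      · exact Or.inr rfl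
      · rcases hw' v hv with h1 | h1
        · exact Or.inl (lt'_trans h1 h)
        · exact Or.inl (h1 ▸ h)

end order

lemma fixed_unique {u v : W β} {ζ : ℕ → ℤ × β} (hu : act u ζ = ζ) (hv : act v ζ = ζ)
    (hl : u.L.length = v.L.length) : u.L = v.L := by
  apply List.ext_getElem hl
  intro n h1 h2
  have e1 := congrFun hu n
  have e2 := congrFun hv n
  simp only [act, h1, h2, dite_true] at e1 e2
  rw [e1, e2]

/-- Selection of an extremal face of a set of words. -/
theorem select (P : Set (W β)) (σ : ℤ) (hσ : σ = 1 ∨ σ = -1) (B : ℤ)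
    (hfin : ∀ J : ℕ, {w ∈ P | w.L.length ≤ J}.Finite)
    (hB : ∀ w ∈ P, σ * w.a ≤ B) (h0 : ∀ w ∈ P, w.L.length = 0 → w = 1)
    (hpos : ∃ w ∈ P, 0 < σ * w.a) :
    ∃ N N0 : Set (W β), P ⊆ N ∧ (1 : W β) ∈ N ∧ (1 : W β) ∈ N0 ∧
      (∀ u ∈ N, ∀ v ∈ N, u * v ∈ N) ∧
      (∀ u ∈ N, ∀ v ∈ N, (u * v ∈ N0 ↔ u ∈ N0 ∧ v ∈ N0)) ∧
      (∃ w ∈ P, w ∈ N0 ∧ 0 < w.L.length) ∧
      (∀ u ∈ N0, ∀ v ∈ N0, u.L.length = v.L.length → u = v) ∧
      (∀ B' : ℤ, ∃ J : ℕ, ∀ w ∈ N0, σ * w.a ≤ B' → w.L.length ≤ J) := by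
  classical
  let _ : LinearOrder β := linearOrderOfSTO WellOrderingRel
  obtain ⟨w1, hw1, hw1'⟩ := hpos
  have lenpos : ∀ w ∈ P, 0 < σ * w.a → 0 < w.L.length := by
    intro w hw hw'
    by_contra hc
    have := h0 w hw (by omega)
    rw [this] at hw'
    simp at hw'
  have hB1 : 0 < B := lt_of_lt_of_le hw1' (hB w1 hw1)
  -- extremal slope
  obtain ⟨e0, j0, he0, hj0, ⟨w0, hw0, hw0e, hw0j⟩, hslope⟩ : ∃ e0 j0 : ℤ, 0 < e0 ∧ 0 < j0 ∧
      (∃ w ∈ P, σ * w.a = e0 ∧ (w.L.length : ℤ) = j0) ∧
      ∀ w ∈ P, σ * w.a * j0 ≤ e0 * w.L.length := by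
    set J : ℕ := B.toNat * w1.L.length with hJ
    have hBn : (B.toNat : ℤ) = B := Int.toNat_of_nonneg hB1.le
    set S := ((hfin J).toFinset).filter (fun w => 0 < σ * w.a) with hS
    have hw1S : w1 ∈ S := by
      simp only [hS, Finset.mem_filter, Set.Finite.mem_toFinset, Set.mem_ofPred_eq]
      refine ⟨⟨hw1, ?_⟩, hw1'⟩
      have : 1 ≤ B.toNat := by omega
      rw [hJ]; nlinarith
    obtain ⟨w0, hw0S, hmax⟩ := S.exists_max_image
      (fun w => ((σ * w.a : ℤ) : ℚ) / (w.L.length : ℚ)) ⟨w1, hw1S⟩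
    have hw0' := hw0S
    simp only [hS, Finset.mem_filter, Set.Finite.mem_toFinset, Set.mem_ofPred_eq] at hw0'
    have hl0 := lenpos w0 hw0'.1.1 hw0'.2
    have cmp : ∀ w ∈ S, σ * w.a * w0.L.length ≤ σ * w0.a * w.L.length := by
      intro w hwS
      have hw' := hwS
      simp only [hS, Finset.mem_filter, Set.Finite.mem_toFinset, Set.mem_ofPred_eq] at hw'
      have hl := lenpos w hw'.1.1 hw'.2
      have := hmax w hwS
      rw [div_le_div_iff₀ (by exact_mod_cast hl) (by exact_mod_cast hl0)] at this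
      exact_mod_cast this
    refine ⟨σ * w0.a, w0.L.length, hw0'.2, by exact_mod_cast hl0, ⟨w0, hw0'.1.1, rfl, rfl⟩, ?_⟩
    intro w hw
    by_cases hp : 0 < σ * w.a
    · by_cases hl : w.L.length ≤ J
      · apply cmp
        simp only [hS, Finset.mem_filter, Set.Finite.mem_toFinset, Set.mem_ofPred_eq]
        exact ⟨⟨hw, hl⟩, hp⟩
      · have c1 := cmp w1 hw1S
        have c2 : (B : ℤ) * w1.L.length ≤ w.L.length := by
          have : (J : ℤ) ≤ w.L.length := by omega
          rw [hJ] at this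
          push_cast at this
          rw [hBn] at this
          exact this
        have c3 := hB w hw
        have c4 : (w0.L.length : ℤ) ≤ σ * w0.a * w1.L.length := by
          have : (0 : ℤ) ≤ w0.L.length := by positivity
          nlinarith
        have c5 : (0 : ℤ) ≤ w0.L.length := by positivity
        have c6 := hw0'.2
        calc σ * w.a * w0.L.length ≤ B * w0.L.length := by nlinarith
          _ ≤ B * (σ * w0.a * w1.L.length) := by nlinarith
          _ = σ * w0.a * (B * w1.L.length) := by ring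
          _ ≤ σ * w0.a * w.L.length := by nlinarith
    · have c5 : (0 : ℤ) ≤ w0.L.length := by positivity
      have c6 : (0 : ℤ) ≤ w.L.length := by positivity
      have c7 := hw0'.2
      nlinarith
  have bound : ∀ B' : ℤ, ∀ w : W β, σ * w.a * j0 = e0 * w.L.length → σ * w.a ≤ B' →
      w.L.length ≤ (B' * j0).toNat := by
    intro B' w h1 h2
    have c6 : (0 : ℤ) ≤ w.L.length := by positivity
    have : (w.L.length : ℤ) ≤ B' * j0 := by nlinarith
    omega
  set S := ((hfin (B * j0).toNat).toFinset).filter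
    (fun w => σ * w.a * j0 = e0 * w.L.length ∧ 0 < w.L.length) with hS
  have memS : ∀ w ∈ P, σ * w.a * j0 = e0 * w.L.length → 0 < w.L.length → w ∈ S := by
    intro w hw h1 h2
    simp only [hS, Finset.mem_filter, Set.Finite.mem_toFinset, Set.mem_ofPred_eq]
    exact ⟨⟨hw, bound B w h1 (hB w hw)⟩, h1, h2⟩
  have hw0S : w0 ∈ S := memS w0 hw0 (by rw [hw0e, hw0j]) (by omega)
  have hfx : ∀ w : W β, ∃ ω : ℕ → ℤ × β, 0 < w.L.length → act w ω = ω := by
    intro w
    by_cases h : 0 < w.L.length
    · obtain ⟨ω, hω⟩ := exists_fixed w h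
      exact ⟨ω, fun _ => hω⟩
    · have hl : 0 < w0.L.length := by omega
      exact ⟨fun _ => w0.L[0], fun h' => absurd h' h⟩
  choose f hf using hfx
  obtain ⟨g, hgS, hgmax⟩ := exists_max' S ⟨w0, hw0S⟩ f
  have hgS' := hgS
  simp only [hS, Finset.mem_filter, Set.Finite.mem_toFinset, Set.mem_ofPred_eq] at hgS'
  set ζ := f g with hζ
  have hgζ : act g ζ = ζ := hf g hgS'.2.2
  have lenmul : ∀ u v : W β, ((u * v).L.length : ℤ) = u.L.length + v.L.length := by
    intro u v; simp
  refine ⟨{w | σ * w.a * j0 < e0 * w.L.length ∨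
      (σ * w.a * j0 = e0 * w.L.length ∧ (lt' (act w ζ) ζ ∨ act w ζ = ζ))},
    {w | σ * w.a * j0 = e0 * w.L.length ∧ act w ζ = ζ}, ?_, ?_, ?_, ?_, ?_, ?_, ?_, ?_⟩
  · intro w hw
    rcases (hslope w hw).lt_or_eq with h | h
    · exact Or.inl h
    · refine Or.inr ⟨h, ?_⟩
      by_cases hl : 0 < w.L.length
      · rcases hgmax w (memS w hw h hl) with h1 | h1
        · exact Or.inl (bergman w hl (hf w hl) h1)
        · right; rw [← h1]; exact hf w hl
      · right
        rw [h0 w hw (by omega)]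
        exact act_one _
  · exact Or.inr ⟨by simp, Or.inr (act_one _)⟩
  · exact ⟨by simp, act_one _⟩
  · intro u hu v hv
    simp only [Set.mem_ofPred_eq, lenmul, mul_a] at hu hv ⊢
    rcases hu with hu | ⟨hu, hu'⟩
    · left
      have : σ * v.a * j0 ≤ e0 * v.L.length := by rcases hv with h | h; exacts [h.le, h.1.le]
      nlinarith
    · rcases hv with hv | ⟨hv, hv'⟩
      · left; nlinarith
      · right
        refine ⟨by nlinarith, ?_⟩
        rw [act_mul]
        rcases hv' with h | h
        · left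
          rcases hu' with h' | h'
          · exact lt'_trans (act_lt' u h) h'
          · have := act_lt' u h
            rwa [h'] at this
        · rw [h]; exact hu'
  · intro u hu v hv
    simp only [Set.mem_ofPred_eq, lenmul, mul_a] at hu hv ⊢
    constructor
    · rintro ⟨h1, h2⟩
      have hu1 : σ * u.a * j0 ≤ e0 * u.L.length := by rcases hu with h | h; exacts [h.le, h.1.le]
      have hv1 : σ * v.a * j0 ≤ e0 * v.L.length := by rcases hv with h | h; exacts [h.le, h.1.le]
      have hu2 : σ * u.a * j0 = e0 * u.L.length := by nlinarith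
      have hv2 : σ * v.a * j0 = e0 * v.L.length := by nlinarith
      have hu3 : lt' (act u ζ) ζ ∨ act u ζ = ζ := by
        rcases hu with h | h
        · exact absurd hu2 h.ne
        · exact h.2
      have hv3 : lt' (act v ζ) ζ ∨ act v ζ = ζ := by
        rcases hv with h | h
        · exact absurd hv2 h.ne
        · exact h.2
      rw [act_mul] at h2
      rcases hv3 with h | h
      · exfalso
        have h4 := act_lt' u h
        rw [h2] at h4
        rcases hu3 with h' | h'
        · exact lt'_irrefl _ (lt'_trans h4 h')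
        · rw [h'] at h4; exact lt'_irrefl _ h4
      · rw [h] at h2
        exact ⟨⟨hu2, h2⟩, hv2, h⟩
    · rintro ⟨⟨h1, h2⟩, h3, h4⟩
      exact ⟨by nlinarith, by rw [act_mul, h4, h2]⟩
  · exact ⟨g, hgS'.1.1, ⟨hgS'.2.1, hgζ⟩, hgS'.2.2⟩
  · intro u hu v hv hl
    refine W.ext (fixed_unique hu.2 hv.2 hl) ?_
    have h1 := hu.1
    have h2 := hv.1
    rw [hl] at h1
    have h3 : σ * u.a * j0 = σ * v.a * j0 := h1.trans h2.symm
    have h4 : σ * u.a = σ * v.a := mul_right_cancel₀ hj0.ne' h3
    rcases hσ with h | h <;> rw [h] at h4 <;> omega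
  · intro B'
    exact ⟨(B' * j0).toNat, fun w hw h => bound B' w hw.1 h⟩

end Pool.Agent.Lib.MP_baf2fc_al
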