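import Mathlib
import Pool.Agent.Lib.MP_baf2fc_al.Words

set_option autoImplicit false

namespace Pool.Agent.Lib.MP_baf2fc_al

open PowerSeries

variable {β : Type} (k : Type) [Field k]

/-- The edge of the height cover crossed by a signed letter starting at height zero. -/
def edge (x : β × Bool) : ℤ × β := if x.2 then (0, x.1) else (-1, x.1)

def sgn (x : β × Bool) : ℤ := if x.2 then 1 else -1

def up (x : β × Bool) (j : ℕ) : W β := ⟨List.replicate j (edge x), sgn x⟩

def cs (x : β × Bool) (j : ℕ) : k := if x.2 then (if j ≤ 1 then 1 else 0) else (-1) ^ j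

noncomputable def ser (x : β × Bool) : PowerSeries (MonoidAlgebra k (W β)) :=
  PowerSeries.mk fun j => MonoidAlgebra.single (up x j) (cs k x j)

lemma coeff_ser (x : β × Bool) (j : ℕ) :
    coeff j (ser k x) = MonoidAlgebra.single (up x j) (cs k x j) := by simp [ser]

lemma ser_true (i : β) : ser k (i, true) = C (MonoidAlgebra.single (up (i, true) 0) (1 : k))
    + C (MonoidAlgebra.single (up (i, true) 1) (1 : k)) * X := by
  ext n : 1
  rw [coeff_ser]
  rcases n with _ | _ | n
  · simp [cs]
  · simp [cs, coeff_C]
  · simp [cs, coeff_succ_mul_X]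

lemma ser_mul_inv (i : β) : ser k (i, true) * ser k (i, false) = 1 := by
  rw [ser_true, add_mul, mul_assoc]
  ext n : 1
  rcases n with _ | n
  · simp only [map_add, coeff_C_mul, coeff_ser, coeff_zero_X_mul, mul_zero, add_zero,
      MonoidAlgebra.single_mul_single, coeff_zero_one, MonoidAlgebra.one_def]
    congr 1
    simp [cs]
  · simp only [map_add, coeff_C_mul, coeff_ser, coeff_succ_X_mul,
      MonoidAlgebra.single_mul_single, coeff_one, Nat.succ_ne_zero, if_false]
    have : up (i, true) 0 * up (i, false) (n + 1) = up (i, true) 1 * up (i, false) n := by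
      apply W.ext
      · simp [up, edge, sgn, sh, List.replicate_succ]
      · simp [up]
    rw [this, ← MonoidAlgebra.single_add]
    simp [cs, pow_succ]

lemma inv_mul_ser (i : β) : ser k (i, false) * ser k (i, true) = 1 := by
  rw [ser_true, mul_add, ← mul_assoc]
  ext n : 1
  rcases n with _ | n
  · simp only [map_add, coeff_mul_C, coeff_ser, coeff_zero_mul_X, add_zero,
      MonoidAlgebra.single_mul_single, coeff_zero_one, MonoidAlgebra.one_def]
    congr 1
    simp [cs]
  · simp only [map_add, coeff_mul_C, coeff_ser, coeff_succ_mul_X,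
      MonoidAlgebra.single_mul_single, coeff_one, Nat.succ_ne_zero, if_false]
    have : up (i, false) (n + 1) * up (i, true) 0 = up (i, false) n * up (i, true) 1 := by
      apply W.ext
      · simp [up, edge, sgn, sh, List.replicate_succ']
      · simp [up]
    rw [this, ← MonoidAlgebra.single_add]
    simp [cs, pow_succ]

noncomputable def gen (i : β) : (PowerSeries (MonoidAlgebra k (W β)))ˣ :=
  ⟨ser k (i, true), ser k (i, false), ser_mul_inv k i, inv_mul_ser k i⟩

/-- The relative Magnus expansion of the free group. -/
noncomputable def phi : FreeGroup β →* PowerSeries (MonoidAlgebra k (W β)) :=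
  (Units.coeHom _).comp (FreeGroup.lift (gen k))

lemma phi_mk (l : List (β × Bool)) : phi k (FreeGroup.mk l) = (l.map (ser k)).prod := by
  simp only [phi, MonoidHom.comp_apply, FreeGroup.lift_mk, map_list_prod, List.map_map]
  congr 1
  apply List.map_congr_left
  rintro ⟨i, b⟩ _
  cases b <;> rfl

def edges : List (β × Bool) → List (ℤ × β)
  | [] => []
  | x :: l => edge x :: (edges l).map (sh (sgn x))

def ht (l : List (β × Bool)) : ℤ := (l.map sgn).sum

lemma edges_length (l : List (β × Bool)) : (edges l).length = l.length := by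
  induction l with
  | nil => rfl
  | cons x l ih => simp [edges, ih]

lemma edge_inj : Function.Injective (edge : β × Bool → ℤ × β) := by
  rintro ⟨i, b⟩ ⟨j, c⟩ h
  cases b <;> cases c <;> simp_all [edge]

lemma edges_inj : Function.Injective (edges : List (β × Bool) → List (ℤ × β)) := by
  intro l
  induction l with
  | nil =>
    intro l' h
    cases l' with
    | nil => rfl
    | cons y l' => simp [edges] at h
  | cons x l ih =>
    intro l' h
    cases l' with
    | nil => simp [edges] at h
    | cons y l' =>
      simp only [edges, List.cons.injEq] at h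
      have hxy := edge_inj h.1
      subst hxy
      rw [ih (List.map_injective_iff.mpr (sh_inj _) h.2)]

lemma chain_map_sh (a : ℤ) (L : List (ℤ × β)) :
    (L.map (sh a)).IsChain (· ≠ ·) ↔ L.IsChain (· ≠ ·) := by
  rw [List.isChain_map]
  apply List.IsChain.iff
  intro p q
  exact (sh_inj a).ne_iff

lemma edges_chain (l : List (β × Bool)) (h : FreeGroup.IsReduced l) :
    (edges l).IsChain (· ≠ ·) := by
  induction l with
  | nil => simp [edges]
  | cons x l ih =>
    cases l with
    | nil => simp [edges]
    | cons y l =>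
      rw [FreeGroup.isReduced_cons_cons] at h
      have h2 := (chain_map_sh (sgn x) _).mpr (ih h.2)
      simp only [edges, List.map_cons] at h2 ⊢
      rw [List.isChain_cons_cons]
      refine ⟨?_, h2⟩
      obtain ⟨i, b⟩ := x
      obtain ⟨j, c⟩ := y
      have h1 := h.1
      cases b <;> cases c <;> simp_all [edge, sgn, sh]

variable {k}

lemma exists_of_coeff_mul {p q : PowerSeries (MonoidAlgebra k (W β))} {j : ℕ} {w : W β}
    (h : (coeff j (p * q)).coeff w ≠ 0) :
    ∃ j1 j2 u v, j1 + j2 = j ∧ (coeff j1 p).coeff u ≠ 0 ∧ (coeff j2 q).coeff v ≠ 0 ∧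
      u * v = w := by
  classical
  rw [coeff_mul, MonoidAlgebra.coeff_sum, Finsupp.finsetSum_apply] at h
  obtain ⟨⟨j1, j2⟩, hj, h⟩ := Finset.exists_ne_zero_of_sum_ne_zero h
  have h' := MonoidAlgebra.support_coeff_mul_subset _ _ (Finsupp.mem_support_iff.mpr h)
  obtain ⟨u, hu, v, hv, huv⟩ := Finset.mem_mul.mp h'
  exact ⟨j1, j2, u, v, Finset.HasAntidiagonal.mem_antidiagonal.mp hj, Finsupp.mem_support_iff.mp hu,
    Finsupp.mem_support_iff.mp hv, huv⟩

lemma eq_up {x : β × Bool} {j : ℕ} {u : W β} (h : (coeff j (ser k x)).coeff u ≠ 0) :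
    u = up x j := by
  classical
  rw [coeff_ser, MonoidAlgebra.coeff_single, Finsupp.single_apply] at h
  by_contra hc
  exact h (if_neg (Ne.symm hc))

lemma le_one_of_chain {p : ℤ × β} {j : ℕ} {L : List (ℤ × β)}
    (h : (List.replicate j p ++ L).IsChain (· ≠ ·)) : j ≤ 1 := by
  rcases j with _ | _ | j
  · omega
  · omega
  · simp [List.replicate_succ] at h

lemma suppA (l : List (β × Bool)) : ∀ (j : ℕ) (w : W β),
    (coeff j (l.map (ser k)).prod).coeff w ≠ 0 →
    w.L.length = j ∧ w.a = ht l ∧ (w.L.IsChain (· ≠ ·) →
      w.L.length ≤ l.length ∧ (w.L.length = l.length → w.L = edges l)) := by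
  classical
  induction l with
  | nil =>
    intro j w h
    simp only [List.map_nil, List.prod_nil, coeff_one] at h
    by_cases hj : j = 0
    · simp only [hj, if_true, MonoidAlgebra.one_def, MonoidAlgebra.coeff_single,
        Finsupp.single_apply] at h
      have : (1 : W β) = w := by
        by_contra hc
        exact h (if_neg hc)
      subst this
      simp [hj, ht, edges]
    · simp [hj] at h
  | cons x l ih =>
    intro j w h
    rw [List.map_cons, List.prod_cons] at h
    obtain ⟨j1, j2, u, v, hj, hu, hv, huv⟩ := exists_of_coeff_mul h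
    have hu' := eq_up hu
    obtain ⟨h1, h2, h3⟩ := ih j2 v hv
    subst huv hu'
    refine ⟨by simp [up, h1, hj], by simp [up, ht, h2], fun hc => ?_⟩
    simp only [mul_L, up] at hc ⊢
    have hj1 := le_one_of_chain hc
    have hc2 := (chain_map_sh _ _).mp hc.right_of_append
    obtain ⟨h4, h5⟩ := h3 hc2
    simp only [List.length_append, List.length_replicate, List.length_map, List.length_cons]
    refine ⟨by omega, fun h6 => ?_⟩
    have hj1' : j1 = 1 := by omega
    rw [hj1', h5 (by omega)]
    simp [edges]

lemma suppB (l : List (β × Bool)) (hc : (edges l).IsChain (· ≠ ·)) :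
    (coeff l.length (l.map (ser k)).prod).coeff ⟨edges l, ht l⟩ ≠ 0 := by
  classical
  induction l with
  | nil =>
    have : (⟨edges ([] : List (β × Bool)), ht ([] : List (β × Bool))⟩ : W β) = 1 := rfl
    simp [this]
  | cons x l ih =>
    have hc2 : (edges l).IsChain (· ≠ ·) := by
      simp only [edges] at hc
      exact (chain_map_sh _ _).mp hc.tail
    have ih' := ih hc2
    have hw : (⟨edges (x :: l), ht (x :: l)⟩ : W β) = up x 1 * ⟨edges l, ht l⟩ := by
      apply W.ext
      · simp [up, edges]
      · simp [up, ht]
    rw [List.map_cons, List.prod_cons, coeff_mul, MonoidAlgebra.coeff_sum,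
      Finsupp.finsetSum_apply, Finset.sum_eq_single (1, l.length)]
    · rw [coeff_ser, hw, MonoidAlgebra.coeff_single_mul_eq_mul_coeff (⟨edges l, ht l⟩ : W β)]
      · refine mul_ne_zero ?_ ih'
        obtain ⟨i, b⟩ := x
        cases b <;> simp [cs]
      · intro m _
        exact ⟨fun h => mul_left_cancel_W _ _ _ h, fun h => by rw [h]⟩
    · rintro ⟨j1, j2⟩ hj hne
      by_contra h
      have h' := MonoidAlgebra.support_coeff_mul_subset _ _ (Finsupp.mem_support_iff.mpr h)
      obtain ⟨u, hu, v, hv, huv⟩ := Finset.mem_mul.mp h'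
      have hu' := eq_up (Finsupp.mem_support_iff.mp hu)
      obtain ⟨h1, -, h3⟩ := suppA l j2 v (Finsupp.mem_support_iff.mp hv)
      have hL := congrArg W.L huv
      subst hu'
      simp only [mul_L, up] at hL
      rw [← hL] at hc
      have hj1 := le_one_of_chain hc
      have h4 := (h3 ((chain_map_sh _ _).mp hc.right_of_append)).1
      have hj' := Finset.HasAntidiagonal.mem_antidiagonal.mp hj
      simp only [List.length_cons] at hj'
      apply hne
      simp only [Prod.mk.injEq]
      omega
    · intro h
      exfalso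
      apply h
      simp [add_comm]

end Pool.Agent.Lib.MP_baf2fc_al
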