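import Mathlib
import Pool.Agent.Lib.MP_baf2fc_al.Magnus

set_option autoImplicit false

namespace Pool.Agent.Lib.MP_baf2fc_al

open PowerSeries

variable {β : Type} {k : Type} [Field k]

/-- Total exponent sum. -/
def lam : FreeGroup β →* Multiplicative ℤ := FreeGroup.lift fun _ => Multiplicative.ofAdd 1

def lamZ (g : FreeGroup β) : ℤ := Multiplicative.toAdd (lam g)

lemma lamZ_mk (l : List (β × Bool)) : lamZ (FreeGroup.mk l) = ht l := by
  simp only [lamZ, lam, FreeGroup.lift_mk, ht]
  induction l with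
  | nil => simp
  | cons x l ih =>
    simp only [List.map_cons, List.prod_cons, toAdd_mul, ih, List.sum_cons]
    obtain ⟨i, b⟩ := x
    cases b <;> simp [sgn]

variable (k) in
noncomputable def Phi : MonoidAlgebra k (FreeGroup β) →ₐ[k] PowerSeries (MonoidAlgebra k (W β)) :=
  MonoidAlgebra.lift k _ _ (phi k)

variable (k) in
noncomputable def Tlam : FreeGroup β →* LaurentPolynomial k where
  toFun g := LaurentPolynomial.T (lamZ g)
  map_one' := by simp [lamZ]
  map_mul' g h := by
    simp only [lamZ, map_mul, toAdd_mul]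
    exact LaurentPolynomial.T_add _ _

variable (k) in
noncomputable def Lam : MonoidAlgebra k (FreeGroup β) →ₐ[k] LaurentPolynomial k :=
  MonoidAlgebra.lift k _ _ (Tlam k)

lemma coeff_Phi (r : MonoidAlgebra k (FreeGroup β)) (j : ℕ) (w : W β) :
    (coeff j (Phi k r)).coeff w
      = ∑ g ∈ r.coeff.support, r.coeff g * (coeff j (phi k g)).coeff w := by
  rw [Phi, MonoidAlgebra.lift_apply, Finsupp.sum, map_sum, MonoidAlgebra.coeff_sum,
    Finsupp.finsetSum_apply]
  rfl

lemma exists_of_coeff_Phi {r : MonoidAlgebra k (FreeGroup β)} {j : ℕ} {w : W β}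
    (h : (coeff j (Phi k r)).coeff w ≠ 0) :
    ∃ g ∈ r.coeff.support, w.L.length = j ∧ w.a = lamZ g := by
  classical
  rw [coeff_Phi] at h
  obtain ⟨g, hg, h⟩ := Finset.exists_ne_zero_of_sum_ne_zero h
  have h2 := right_ne_zero_of_mul h
  rw [← FreeGroup.mk_toWord (x := g), phi_mk] at h2
  obtain ⟨h3, h4, -⟩ := suppA _ _ _ h2
  refine ⟨g, hg, h3, ?_⟩
  rw [h4, ← lamZ_mk, FreeGroup.mk_toWord]

lemma exists_coeff_Phi_ne_zero {r : MonoidAlgebra k (FreeGroup β)} {g : FreeGroup β}
    (hg : g ∈ r.coeff.support) : ∃ j w, (coeff j (Phi k r)).coeff w ≠ 0 ∧ w.a = lamZ g := by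
  classical
  obtain ⟨g0, hg0, hmax⟩ := (r.coeff.support.filter (fun h => lamZ h = lamZ g)).exists_max_image
    (fun h => h.toWord.length) ⟨g, by simp only [Finset.mem_filter]; exact ⟨hg, trivial⟩⟩
  rw [Finset.mem_filter] at hg0
  have hch := edges_chain _ (FreeGroup.isReduced_toWord (x := g0))
  have hht : ht g0.toWord = lamZ g := by rw [← lamZ_mk, FreeGroup.mk_toWord, hg0.2]
  refine ⟨g0.toWord.length, ⟨edges g0.toWord, ht g0.toWord⟩, ?_, hht⟩
  rw [coeff_Phi, Finset.sum_eq_single g0]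
  · refine mul_ne_zero (Finsupp.mem_support_iff.mp hg0.1) ?_
    have := suppB (k := k) _ hch
    rwa [← phi_mk, FreeGroup.mk_toWord] at this
  · intro h hh hne
    by_contra hc
    have h2 := right_ne_zero_of_mul hc
    rw [← FreeGroup.mk_toWord (x := h), phi_mk] at h2
    obtain ⟨h3, h4, h5⟩ := suppA _ _ _ h2
    obtain ⟨h6, h7⟩ := h5 hch
    have h8 : lamZ h = lamZ g := by
      rw [← hht, ← FreeGroup.mk_toWord (x := h), lamZ_mk]
      exact h4.symm
    have h9 := hmax h (Finset.mem_filter.mpr ⟨hh, h8⟩)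
    simp only [edges_length] at h6 h7
    have h10 := edges_inj (h7 (by omega))
    exact hne (FreeGroup.toWord_injective h10).symm
  · intro h
    exact absurd hg0.1 h

lemma coeff_zero_prod (l : List (β × Bool)) :
    coeff 0 (l.map (ser k)).prod = MonoidAlgebra.single (⟨[], ht l⟩ : W β) 1 := by
  induction l with
  | nil => simp [ht, MonoidAlgebra.one_def]; rfl
  | cons x l ih =>
    rw [List.map_cons, List.prod_cons, coeff_zero_eq_constantCoeff_apply, map_mul,
      ← coeff_zero_eq_constantCoeff_apply, ← coeff_zero_eq_constantCoeff_apply, ih, coeff_ser,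
      MonoidAlgebra.single_mul_single]
    congr 1
    obtain ⟨i, b⟩ := x
    cases b <;> simp [cs]

lemma coeff_zero_Phi (r : MonoidAlgebra k (FreeGroup β)) (e : ℤ) :
    (coeff 0 (Phi k r)).coeff ⟨[], e⟩ = (Lam k r).coeff e := by
  classical
  induction r using MonoidAlgebra.induction_linear with
  | zero => simp
  | add x y hx hy =>
    simp only [map_add, MonoidAlgebra.coeff_add, AddMonoidAlgebra.coeff_add, Finsupp.add_apply,
      hx, hy]
  | single g c =>
    have h1 : ∀ p : PowerSeries (MonoidAlgebra k (W β)), coeff 0 (c • p) = c • coeff 0 p :=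
      fun _ => rfl
    simp only [Phi, Lam, MonoidAlgebra.lift_single, h1, MonoidAlgebra.coeff_smul,
      Finsupp.smul_apply, AddMonoidAlgebra.coeff_smul]
    congr 1
    rw [← FreeGroup.mk_toWord (x := g), phi_mk, coeff_zero_prod]
    change _ = (LaurentPolynomial.T (lamZ (FreeGroup.mk g.toWord)) : LaurentPolynomial k).coeff e
    rw [lamZ_mk, LaurentPolynomial.T_apply, MonoidAlgebra.coeff_single, Finsupp.single_apply]
    simp

section face
variable (N N0 : Set (W β))

open Classical in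
noncomputable def tau : MonoidAlgebra k (W β) →ₗ[k] k where
  toFun x := x.coeff.sum fun w c => if w ∈ N0 then c else 0
  map_add' x y := by
    rw [MonoidAlgebra.coeff_add, Finsupp.sum_add_index']
    · simp
    · intro w a b; split_ifs <;> simp
  map_smul' c x := by
    rw [MonoidAlgebra.coeff_smul, Finsupp.sum_smul_index']
    · simp only [Finsupp.sum, RingHom.id_apply, smul_eq_mul, Finset.mul_sum]
      apply Finset.sum_congr rfl
      intro w _
      split_ifs <;> simp
    · simp

open Classical in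
lemma tau_apply (x : MonoidAlgebra k (W β)) :
    tau N0 x = ∑ w ∈ x.coeff.support, if w ∈ N0 then x.coeff w else 0 := rfl

open Classical in
lemma tau_single (w : W β) (c : k) :
    tau N0 (MonoidAlgebra.single w c) = if w ∈ N0 then c else 0 := by
  change (MonoidAlgebra.single w c : MonoidAlgebra k (W β)).coeff.sum
    (fun w c => if w ∈ N0 then c else (0 : k)) = _
  rw [MonoidAlgebra.coeff_single, Finsupp.sum_single_index]
  simp

lemma tau_mul (hN : ∀ u ∈ N, ∀ v ∈ N, (u * v ∈ N0 ↔ u ∈ N0 ∧ v ∈ N0))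
    (x y : MonoidAlgebra k (W β)) (hx : ∀ w, x.coeff w ≠ 0 → w ∈ N)
    (hy : ∀ w, y.coeff w ≠ 0 → w ∈ N) : tau N0 (x * y) = tau N0 x * tau N0 y := by
  classical
  rw [MonoidAlgebra.mul_def, tau_apply N0 x, tau_apply N0 y, Finset.sum_mul_sum]
  simp only [Finsupp.sum, map_sum, tau_single]
  apply Finset.sum_congr rfl
  intro u hu
  apply Finset.sum_congr rfl
  intro v hv
  have := hN u (hx u (Finsupp.mem_support_iff.mp hu)) v (hy v (Finsupp.mem_support_iff.mp hv))
  by_cases h1 : u ∈ N0 <;> by_cases h2 : v ∈ N0 <;> simp [this, h1, h2]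

lemma coeff_algebraMap_ne {c : k} {j : ℕ} {w : W β}
    (h : (coeff j (algebraMap k (PowerSeries (MonoidAlgebra k (W β))) c)).coeff w ≠ 0) :
    w = 1 := by
  classical
  rw [PowerSeries.algebraMap_apply, coeff_C] at h
  split_ifs at h with hj
  · rw [MonoidAlgebra.coe_algebraMap] at h
    simp only [Function.comp_apply, MonoidAlgebra.coeff_single, Finsupp.single_apply] at h
    by_contra hc
    exact h (if_neg (Ne.symm hc))
  · simp at h

variable (k) in
/-- Series whose coefficients are supported on a submonoid. -/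
def supp (h1 : (1 : W β) ∈ N) (hN : ∀ u ∈ N, ∀ v ∈ N, u * v ∈ N) :
    Subalgebra k (PowerSeries (MonoidAlgebra k (W β))) where
  carrier := {p | ∀ j w, (coeff j p).coeff w ≠ 0 → w ∈ N}
  mul_mem' := by
    intro p q hp hq j w h
    obtain ⟨j1, j2, u, v, -, hu, hv, rfl⟩ := exists_of_coeff_mul h
    exact hN u (hp _ _ hu) v (hq _ _ hv)
  add_mem' := by
    intro p q hp hq j w h
    rw [map_add, MonoidAlgebra.coeff_add, Finsupp.add_apply] at h
    by_cases h1 : (coeff j p).coeff w = 0
    · rw [h1, zero_add] at h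
      exact hq _ _ h
    · exact hp _ _ h1
  algebraMap_mem' := by
    intro c j w h
    rw [coeff_algebraMap_ne h]
    exact h1

noncomputable def Psi (h1 : (1 : W β) ∈ N) (hN : ∀ u ∈ N, ∀ v ∈ N, u * v ∈ N)
    (h0 : (1 : W β) ∈ N0) (hN0 : ∀ u ∈ N, ∀ v ∈ N, (u * v ∈ N0 ↔ u ∈ N0 ∧ v ∈ N0)) :
    supp k N h1 hN →ₐ[k] PowerSeries k where
  toFun p := PowerSeries.mk fun j => tau N0 (coeff j p.1)
  map_one' := by
    ext j
    simp only [OneMemClass.coe_one, coeff_mk, coeff_one]
    split_ifs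
    · rw [MonoidAlgebra.one_def, tau_single, if_pos h0]
    · simp
  map_mul' p q := by
    ext j
    simp only [MulMemClass.coe_mul, coeff_mk, coeff_mul, map_sum]
    apply Finset.sum_congr rfl
    intro x _
    exact tau_mul N N0 hN0 _ _ (p.2 _) (q.2 _)
  map_zero' := by ext j; simp
  map_add' p q := by ext j; simp
  commutes' c := by
    ext j
    simp only [Subalgebra.coe_algebraMap, coeff_mk, PowerSeries.algebraMap_apply, coeff_C]
    split_ifs
    · rw [MonoidAlgebra.coe_algebraMap]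
      simp only [Function.comp_apply]
      rw [tau_single, if_pos h0]
    · simp

end face

lemma range_ne_bot_of_injective {A B C : Type} [Ring A] [Ring B] [Ring C] [Algebra k A]
    [Algebra k B] [Algebra k C] (f : A →ₐ[k] B) (g : B →ₐ[k] C) (hg : Function.Injective g)
    (h : f.range ≠ ⊥) : (g.comp f).range ≠ ⊥ := by
  intro hc
  apply h
  rw [eq_bot_iff]
  rintro _ ⟨a, rfl⟩
  have : (g.comp f) a ∈ (⊥ : Subalgebra k C) := hc ▸ ⟨a, rfl⟩
  obtain ⟨c, hc'⟩ := Algebra.mem_bot.mp this
  refine Algebra.mem_bot.mpr ⟨c, hg ?_⟩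
  rw [g.commutes]
  exact hc'

theorem core (G : Finset (MonoidAlgebra k (FreeGroup β)))
    (h : ∃ r ∈ G, ∃ g ∈ r.coeff.support, lamZ g ≠ 0) :
    ∃ f : Algebra.adjoin k (G : Set (MonoidAlgebra k (FreeGroup β))) →ₐ[k] LaurentPolynomial k,
      f.range ≠ ⊥ := by
  classical
  by_cases hc : ∃ r ∈ G, Lam k r ∉ (⊥ : Subalgebra k (LaurentPolynomial k))
  · obtain ⟨r, hr, hr'⟩ := hc
    refine ⟨(Lam k).comp (Subalgebra.val _), fun h => hr' ?_⟩
    rw [← h]
    exact ⟨⟨r, Algebra.subset_adjoin hr⟩, rfl⟩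
  push Not at hc
  obtain ⟨r1, hr1, g1, hg1, hl1⟩ := h
  obtain ⟨σ, hσ, hσ'⟩ : ∃ σ : ℤ, (σ = 1 ∨ σ = -1) ∧ 0 < σ * lamZ g1 := by
    rcases lt_or_gt_of_ne hl1 with h | h
    · exact ⟨-1, Or.inr rfl, by linarith⟩
    · exact ⟨1, Or.inl rfl, by linarith⟩
  have bnd : ∀ r : MonoidAlgebra k (FreeGroup β), ∀ j w, (coeff j (Phi k r)).coeff w ≠ 0 →
      σ * w.a ≤ ∑ g ∈ r.coeff.support, |lamZ g| := by
    intro r j w hw
    obtain ⟨g, hg, -, h2⟩ := exists_of_coeff_Phi hw
    have h3 : |lamZ g| ≤ ∑ g ∈ r.coeff.support, |lamZ g| :=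
      Finset.single_le_sum (f := fun g => |lamZ g|) (fun _ _ => abs_nonneg _) hg
    have h4 : σ * w.a ≤ |lamZ g| := by
      rw [h2]
      rcases hσ with h | h <;> rw [h]
      · simpa using le_abs_self _
      · simpa using neg_le_abs _
    linarith
  have hsel := select {w | ∃ r ∈ G, ∃ j, (coeff j (Phi k r)).coeff w ≠ 0} σ hσ
    (∑ r ∈ G, ∑ g ∈ r.coeff.support, |lamZ g|)
    (by
      intro J
      refine Set.Finite.subset (G.biUnion fun r => (Finset.range (J + 1)).biUnion
        fun j => (coeff j (Phi k r)).coeff.support).finite_toSet ?_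
      rintro w ⟨⟨r, hr, j, hw⟩, hl⟩
      obtain ⟨-, -, hl', -⟩ := exists_of_coeff_Phi hw
      simp only [Finset.coe_biUnion, Finset.mem_coe, Set.mem_iUnion, Finset.mem_range]
      exact ⟨r, hr, j, by omega, Finsupp.mem_support_iff.mpr hw⟩)
    (by
      rintro w ⟨r, hr, j, hw⟩
      refine (bnd r j w hw).trans ?_
      exact Finset.single_le_sum (f := fun r : MonoidAlgebra k (FreeGroup β) =>
        ∑ g ∈ r.coeff.support, |lamZ g|)
        (fun _ _ => Finset.sum_nonneg fun _ _ => abs_nonneg _) hr)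
    (by
      rintro ⟨L, e⟩ ⟨r, hr, j, hw⟩ hl
      obtain ⟨-, -, hl', -⟩ := exists_of_coeff_Phi hw
      have hL : L = [] := List.length_eq_zero_iff.mp hl
      have hj : j = 0 := by rw [← hl']; exact hl
      subst hL hj
      rw [coeff_zero_Phi] at hw
      obtain ⟨c, hc'⟩ := Algebra.mem_bot.mp (hc r hr)
      rw [← hc', ← LaurentPolynomial.C_eq_algebraMap, LaurentPolynomial.C_apply] at hw
      have he : e = 0 := by
        by_contra h
        exact hw (if_neg h)
      subst he
      rfl)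
    (by
      obtain ⟨j, w, hw, ha⟩ := exists_coeff_Phi_ne_zero hg1
      exact ⟨w, ⟨r1, hr1, j, hw⟩, by rw [ha]; exact hσ'⟩)
  obtain ⟨N, N0, hPN, h1, h0, hN, hN0, ⟨w1, ⟨r2, hr2, j2, hw1⟩, hw1N0, hw1l⟩, huniq, hbd⟩ :=
    hsel
  · have hle : Algebra.adjoin k (G : Set (MonoidAlgebra k (FreeGroup β)))
        ≤ (supp k N h1 hN).comap (Phi k) := by
      rw [Algebra.adjoin_le_iff]
      intro r hr j w hw
      exact hPN ⟨r, hr, j, hw⟩
    let f0 : Algebra.adjoin k (G : Set (MonoidAlgebra k (FreeGroup β))) →ₐ[k] PowerSeries k :=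
      (Psi N N0 h1 hN h0 hN0).comp
        (((Phi k).comp (Subalgebra.val _)).codRestrict (supp k N h1 hN) (fun r => hle r.2))
    have f0c : ∀ r j, coeff j (f0 r) = tau N0 (coeff j (Phi k r.1)) := by
      intro r j
      simp [f0, Psi]
    let ι : Polynomial k →ₐ[k] PowerSeries k := Polynomial.coeToPowerSeries.algHom k
    have ιc : ∀ p : Polynomial k, ι p = (p : PowerSeries k) := by
      intro p
      simp [ι, Polynomial.coeToPowerSeries.algHom_apply]
    have hι : Function.Injective ι := by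
      intro p q hpq
      rw [ιc, ιc] at hpq
      exact Polynomial.coe_injective k hpq
    have hrange : ∀ r, f0 r ∈ ι.range := by
      intro r
      obtain ⟨J, hJ⟩ := hbd (∑ g ∈ r.1.coeff.support, |lamZ g|)
      refine ⟨PowerSeries.trunc (J + 1) (f0 r), ?_⟩
      change ι _ = _
      rw [ιc]
      ext j
      rw [Polynomial.coeff_coe, coeff_trunc]
      split_ifs with hj
      · rfl
      · rw [f0c, tau_apply]
        symm
        apply Finset.sum_eq_zero
        intro w hw
        rw [if_neg]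
        intro hw0
        have hw' := Finsupp.mem_support_iff.mp hw
        have h2 := hJ w hw0 (bnd _ _ _ hw')
        obtain ⟨-, -, h3, -⟩ := exists_of_coeff_Phi hw'
        omega
    let f1 : Algebra.adjoin k (G : Set (MonoidAlgebra k (FreeGroup β))) →ₐ[k] Polynomial k :=
      ((AlgEquiv.ofInjective ι hι).symm : ι.range →ₐ[k] Polynomial k).comp
        (f0.codRestrict ι.range hrange)
    have hf1 : ∀ r, ι (f1 r) = f0 r := by
      intro r
      have := (AlgEquiv.ofInjective ι hι).apply_symm_apply ⟨f0 r, hrange r⟩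
      exact congrArg Subtype.val this
    refine ⟨Polynomial.toLaurentAlg.comp f1,
      range_ne_bot_of_injective f1 _ Polynomial.toLaurent_injective fun hbot => ?_⟩
    have hmem : f1 ⟨r2, Algebra.subset_adjoin hr2⟩ ∈ (⊥ : Subalgebra k (Polynomial k)) :=
      hbot ▸ ⟨_, rfl⟩
    obtain ⟨c, hc'⟩ := Algebra.mem_bot.mp hmem
    have h2 := hf1 ⟨r2, Algebra.subset_adjoin hr2⟩
    rw [← hc', ι.commutes] at h2
    have h3 := congrArg (coeff j2) h2
    obtain ⟨-, -, hl, -⟩ := exists_of_coeff_Phi hw1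
    rw [f0c, PowerSeries.algebraMap_apply, coeff_C, if_neg (by omega), tau_apply,
      Finset.sum_eq_single w1] at h3
    · rw [if_pos hw1N0] at h3
      exact hw1 h3.symm
    · intro w hw hne
      rw [if_neg]
      intro hw0
      obtain ⟨-, -, hl', -⟩ := exists_of_coeff_Phi (Finsupp.mem_support_iff.mp hw)
      exact hne (huniq w hw0 w1 hw1N0 (hl'.trans hl.symm))
    · intro h
      exact absurd (Finsupp.mem_support_iff.mpr hw1) h

theorem transfer {α : Type} (θ : FreeGroup β →* FreeGroup α) (hθ : Function.Injective θ)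
    (G : Finset (MonoidAlgebra k (FreeGroup α))) (G' : Finset (MonoidAlgebra k (FreeGroup β)))
    (h1 : ∀ r ∈ G, ∃ r' ∈ G', MonoidAlgebra.mapDomainAlgHom k k θ r' = r)
    (h2 : ∀ r' ∈ G', MonoidAlgebra.mapDomainAlgHom k k θ r' ∈ G)
    (h : ∃ r ∈ G', ∃ g ∈ r.coeff.support, lamZ g ≠ 0) :
    ∃ f : Algebra.adjoin k (G : Set (MonoidAlgebra k (FreeGroup α))) →ₐ[k] LaurentPolynomial k,
      f.range ≠ ⊥ := by
  have hι : Function.Injective (MonoidAlgebra.mapDomainAlgHom k k θ) :=
    MonoidAlgebra.mapDomain_injective hθ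
  have himg : (Algebra.adjoin k (G' : Set (MonoidAlgebra k (FreeGroup β)))).map
      (MonoidAlgebra.mapDomainAlgHom k k θ)
      = Algebra.adjoin k (G : Set (MonoidAlgebra k (FreeGroup α))) := by
    rw [AlgHom.map_adjoin]
    congr 1
    ext r
    constructor
    · rintro ⟨s, hs, rfl⟩
      exact h2 s hs
    · intro hr
      obtain ⟨r', hr', h⟩ := h1 r hr
      exact ⟨r', hr', h⟩
  obtain ⟨f, hf⟩ := core G' h
  obtain ⟨E⟩ : Nonempty (Algebra.adjoin k (G' : Set (MonoidAlgebra k (FreeGroup β))) ≃ₐ[k]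
      Algebra.adjoin k (G : Set (MonoidAlgebra k (FreeGroup α)))) :=
    ⟨(Subalgebra.equivMapOfInjective _ _ hι).trans (Subalgebra.equivOfEq _ _ himg)⟩
  refine ⟨f.comp E.symm.toAlgHom, fun h => hf ?_⟩
  rw [eq_bot_iff, ← h]
  rintro _ ⟨x, rfl⟩
  refine ⟨E x, ?_⟩
  change f (E.symm (E x)) = f x
  rw [E.symm_apply_apply]

theorem exists_theta {α : Type} (S : Set (FreeGroup α)) :
    ∃ (β : Type) (θ : FreeGroup β →* FreeGroup α), Function.Injective θ ∧
      (∀ g, g ∈ Subgroup.closure S ↔ g ∈ Set.range θ) := by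
  refine ⟨IsFreeGroup.Generators (Subgroup.closure S), (Subgroup.closure S).subtype.comp
    (IsFreeGroup.mulEquiv (Subgroup.closure S)).toMonoidHom, ?_, ?_⟩
  · exact (Subgroup.closure S).subtype_injective.comp
      (IsFreeGroup.mulEquiv (Subgroup.closure S)).injective
  · intro g
    constructor
    · intro hg
      refine ⟨(IsFreeGroup.mulEquiv (Subgroup.closure S)).symm ⟨g, hg⟩, ?_⟩
      change (((IsFreeGroup.mulEquiv (Subgroup.closure S))
        ((IsFreeGroup.mulEquiv (Subgroup.closure S)).symm ⟨g, hg⟩) : Subgroup.closure S) :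
          FreeGroup α) = g
      rw [MulEquiv.apply_symm_apply]
    · rintro ⟨x, rfl⟩
      exact ((IsFreeGroup.mulEquiv (Subgroup.closure S)) x).2

theorem triv_of_lam {α : Type} (S : Set (FreeGroup α)) (θ : FreeGroup β →* FreeGroup α)
    (hθ : Function.Injective θ) (hθr : ∀ g, g ∈ Subgroup.closure S ↔ g ∈ Set.range θ)
    (hc : ∀ x, θ x ∈ S → lamZ x = 0) : ∀ g ∈ S, g = 1 := by
  have hall : ∀ g ∈ Subgroup.closure S, ∀ x, θ x = g → lamZ x = 0 := by
    intro g hg
    induction hg using Subgroup.closure_induction with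
    | mem g hg =>
      intro x hx
      exact hc x (hx ▸ hg)
    | one =>
      intro x hx
      have : x = 1 := hθ (by rw [hx, map_one])
      simp [this, lamZ]
    | mul g g' hg hg' ih ih' =>
      intro x hx
      obtain ⟨y, hy⟩ := (hθr g).mp hg
      obtain ⟨y', hy'⟩ := (hθr g').mp hg'
      have : x = y * y' := hθ (by rw [hx, map_mul, hy, hy'])
      have h1 := ih y hy
      have h2 := ih' y' hy'
      simp only [lamZ] at h1 h2 ⊢
      rw [this, map_mul, toAdd_mul, h1, h2, add_zero]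
    | inv g hg ih =>
      intro x hx
      obtain ⟨y, hy⟩ := (hθr g).mp hg
      have : x = y⁻¹ := hθ (by rw [hx, map_inv, hy])
      have h1 := ih y hy
      simp only [lamZ] at h1 ⊢
      rw [this, map_inv, toAdd_inv, h1, neg_zero]
  have hemp : IsEmpty β := by
    constructor
    intro i
    have := hall (θ (FreeGroup.of i)) ((hθr _).mpr ⟨_, rfl⟩) _ rfl
    simp [lamZ, lam] at this
  intro g hg
  obtain ⟨x, hx⟩ := (hθr g).mp (Subgroup.subset_closure hg)
  rw [← hx, Subsingleton.elim x 1, map_one]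

theorem main (α : Type) (R : Subalgebra k (MonoidAlgebra k (FreeGroup α)))
    (hR : R.FG) (hne : R ≠ ⊥) : ∃ f : R →ₐ[k] LaurentPolynomial k, f.range ≠ ⊥ := by
  classical
  obtain ⟨G, rfl⟩ := hR
  obtain ⟨β, θ, hθ, hθr⟩ := exists_theta {g : FreeGroup α | ∃ r ∈ G, g ∈ r.coeff.support}
  have hback : ∀ r ∈ G,
      MonoidAlgebra.mapDomainAlgHom k k θ (MonoidAlgebra.comapDomain θ hθ r) = r := by
    intro r hr
    apply MonoidAlgebra.mapDomain_comapDomain
    intro g hg
    exact (hθr g).mp (Subgroup.subset_closure ⟨r, hr, hg⟩)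
  refine transfer θ hθ G (G.image (MonoidAlgebra.comapDomain θ hθ)) ?_ ?_ ?_
  · intro r hr
    exact ⟨_, Finset.mem_image_of_mem _ hr, hback r hr⟩
  · intro r' hr'
    obtain ⟨r, hr, rfl⟩ := Finset.mem_image.mp hr'
    rw [hback r hr]
    exact hr
  · by_contra hc
    push Not at hc
    have hsupp := triv_of_lam _ θ hθ hθr (by
      rintro x ⟨r, hr, hg⟩
      apply hc _ (Finset.mem_image_of_mem _ hr)
      rw [Finsupp.mem_support_iff, MonoidAlgebra.coeff_comapDomain, Finsupp.comapDomain_apply]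
      exact Finsupp.mem_support_iff.mp hg)
    apply hne
    rw [eq_bot_iff, Algebra.adjoin_le_iff]
    intro r hr
    refine Algebra.mem_bot.mpr ⟨r.coeff 1, ?_⟩
    rw [MonoidAlgebra.coe_algebraMap]
    apply MonoidAlgebra.coeff_injective
    ext g
    simp only [Function.comp_apply, Algebra.algebraMap_self, RingHom.id_apply,
      MonoidAlgebra.coeff_single, Finsupp.single_apply]
    split_ifs with h
    · rw [h]
    · by_contra h'
      exact h (hsupp g ⟨r, hr, Finsupp.mem_support_iff.mpr (Ne.symm h')⟩).symm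

end Pool.Agent.Lib.MP_baf2fc_al
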